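import Mathlib

/-!
# MP_93f727_an: the shifted generating function identity for continuous dual q-Hahn polynomials fails

For every `n ≥ 1`, every `q ∈ (-1, 1)` and all real `a, b, c` with `a b c ≠ 0` the two sides differ.
-/

set_option autoImplicit false

open Finset PowerSeries

namespace Pool.Agent.Results.MP_93f727_an.Fails

section defs

variable {R : Type*} [CommRing R]

/-- `(α; q)_n` -/
def poch (α q : R) (n : ℕ) : R := ∏ j ∈ range n, (1 - α * q ^ j)

/-- `d_n = (a+b+c) q^n + abc q^(n-1) (1 - q^n - q^(n+1))`, so that `d_0 = a+b+c-abc` -/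
def dd (a b c q : R) : ℕ → R
  | 0 => a + b + c - a * b * c
  | n + 1 => (a + b + c) * q ^ (n + 1) + a * b * c * q ^ n * (1 - q ^ (n + 1) - q ^ (n + 2))

/-- `f_n` -/
def ff (a b c q : R) (n : ℕ) : R := (1 - a * b * q ^ n) * (1 - a * c * q ^ n) * (1 - b * c * q ^ n)

/-- the continuous dual q-Hahn polynomials `ψ_n(x|a,b,c,q)` -/
def psi (x a b c q : R) : ℕ → R
  | 0 => 1
  | 1 => 2 * x - dd a b c q 0
  | n + 2 => (2 * x - dd a b c q (n + 1)) * psi x a b c q (n + 1) -
      (1 - q ^ (n + 1)) * ff a b c q n * psi x a b c q n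

end defs

/-- the q-binomial coefficient -/
noncomputable def qbinom (q : ℝ) (n i : ℕ) : ℝ := poch q q n / (poch q q i * poch q q (n - i))

/-- `AW_n(x|a,b,c,t,q)` as a power series in `t` (the fourth parameter is the variable `X = t`) -/
noncomputable def AW (x a b c q : ℝ) (n : ℕ) : ℝ⟦X⟧ :=
  ∑ i ∈ range (n + 1), C (qbinom q n i * (-a) ^ (n - i) * q ^ (n - i).choose 2) *
    (poch (C (b * c * q ^ i)) (C q) (n - i) * poch (C (b * q ^ i) * X) (C q) (n - i) *
      poch (C (c * q ^ i) * X) (C q) (n - i)) *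
    (poch (C (a * b * c * q ^ (n + i - 1)) * X) (C q) (n - i))⁻¹ *
    psi (C x) (C b) (C c) X (C q) i

/-- `G_n(t)` -/
noncomputable def G (x a b c q : ℝ) (n : ℕ) : ℝ⟦X⟧ :=
  PowerSeries.mk fun i => psi x a b c q (i + n) / poch q q i

/-- the identity of Q1 for given parameters: equality of formal power series in `t` whose
coefficients are polynomials in `x`, i.e. equality for all real `x` -/
def Identity (n : ℕ) (a b c q : ℝ) : Prop :=
  ∀ x : ℝ, G x a b c q n = AW x a b c q n *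
    (poch (C a * X) (C q) n * poch (C b * X) (C q) n * poch (C c * X) (C q) n)⁻¹ * G x a b c q 0

/-- `f` is a polynomial of degree at most `k` with coefficient `l` at `x ^ k` -/
def Po (f : ℝ → ℝ) (k : ℕ) (l : ℝ) : Prop :=
  ∃ p : Polynomial ℝ, (∀ x, f x = p.eval x) ∧ p.natDegree ≤ k ∧ p.coeff k = l

theorem Po.congr {f g : ℝ → ℝ} {k : ℕ} {l : ℝ} (h : Po f k l) (hfg : ∀ x, g x = f x) : Po g k l := by
  obtain ⟨p, h1, h2, h3⟩ := h
  exact ⟨p, fun x => (hfg x).trans (h1 x), h2, h3⟩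

theorem Po.add {f g : ℝ → ℝ} {k : ℕ} {l m : ℝ} (hf : Po f k l) (hg : Po g k m) :
    Po (fun x => f x + g x) k (l + m) := by
  obtain ⟨p, h1, h2, h3⟩ := hf
  obtain ⟨r, g1, g2, g3⟩ := hg
  refine ⟨p + r, fun x => ?_, (Polynomial.natDegree_add_le _ _).trans (max_le h2 g2), ?_⟩
  · rw [Polynomial.eval_add, ← h1, ← g1]
  · rw [Polynomial.coeff_add, h3, g3]

theorem Po.smul {f : ℝ → ℝ} {k : ℕ} {l : ℝ} (hf : Po f k l) (r : ℝ) :
    Po (fun x => r * f x) k (r * l) := by
  obtain ⟨p, h1, h2, h3⟩ := hf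
  refine ⟨Polynomial.C r * p, fun x => ?_, (Polynomial.natDegree_C_mul_le _ _).trans h2, ?_⟩
  · rw [Polynomial.eval_mul, Polynomial.eval_C, ← h1]
  · rw [Polynomial.coeff_C_mul, h3]

theorem Po.mulX {f : ℝ → ℝ} {k : ℕ} {l : ℝ} (hf : Po f k l) : Po (fun x => x * f x) (k + 1) l := by
  obtain ⟨p, h1, h2, h3⟩ := hf
  refine ⟨Polynomial.X * p, fun x => ?_, ?_, ?_⟩
  · rw [Polynomial.eval_mul, Polynomial.eval_X, ← h1]
  · refine Polynomial.natDegree_mul_le.trans ?_
    have := Polynomial.natDegree_X_le (R := ℝ)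
    omega
  · rw [Polynomial.coeff_X_mul, h3]

theorem Po.up {f : ℝ → ℝ} {k : ℕ} {l : ℝ} (hf : Po f k l) {m : ℕ} (hkm : k < m) : Po f m 0 := by
  obtain ⟨p, h1, h2, h3⟩ := hf
  exact ⟨p, h1, h2.trans hkm.le, Polynomial.coeff_eq_zero_of_natDegree_lt (h2.trans_lt hkm)⟩

theorem Po.const (r : ℝ) : Po (fun _ => r) 0 r :=
  ⟨Polynomial.C r, fun x => by simp, by simp, by simp⟩

theorem Po.unique {f : ℝ → ℝ} {k : ℕ} {l m : ℝ} (h : Po f k l) (h' : Po f k m) : l = m := by
  obtain ⟨p, h1, h2, h3⟩ := h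
  obtain ⟨r, g1, g2, g3⟩ := h'
  have : p = r := Polynomial.funext fun x => by rw [← h1, ← g1]
  rw [← h3, ← g3, this]

theorem Po.sum {ι : Type*} (s : Finset ι) (f : ι → ℝ → ℝ) (l : ι → ℝ) (k : ℕ)
    (h : ∀ i ∈ s, Po (f i) k (l i)) : Po (fun x => ∑ i ∈ s, f i x) k (∑ i ∈ s, l i) := by
  classical
  induction s using Finset.induction_on with
  | empty =>
    refine ⟨0, fun x => by simp, by simp, by simp⟩
  | insert a s ha ih =>
    have h1 := (h a (Finset.mem_insert_self a s)).add (ih fun i hi => h i (Finset.mem_insert_of_mem hi))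
    rw [Finset.sum_insert ha]
    exact h1.congr fun x => by rw [Finset.sum_insert ha]

/-- the scalar polynomials -/
theorem psi_Po (a b c q : ℝ) (n : ℕ) : Po (fun x => psi x a b c q n) n (2 ^ n) ∧
    Po (fun x => psi x a b c q (n + 1)) (n + 1) (2 ^ (n + 1)) := by
  induction n with
  | zero =>
    refine ⟨(Po.const 1).congr fun x => rfl, ?_⟩
    have h1 := (((Po.const 1).mulX.smul 2).add ((Po.const (-(dd a b c q 0))).up (Nat.zero_lt_one)))
    rw [show (2 : ℝ) ^ (0 + 1) = 2 * 1 + 0 by norm_num]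
    refine h1.congr fun x => ?_
    show 2 * x - dd a b c q 0 = _
    ring
  | succ n ih =>
    refine ⟨ih.2, ?_⟩
    have h1 := ((ih.2.mulX.smul 2).add ((ih.2.smul (-(dd a b c q (n + 1)))).up (Nat.lt_succ_self _))).add
      ((ih.1.smul (-((1 - q ^ (n + 1)) * ff a b c q n))).up (show n < n + 1 + 1 by omega))
    rw [show (2 : ℝ) ^ (n + 1 + 1) = 2 * 2 ^ (n + 1) + 0 + 0 by ring]
    refine h1.congr fun x => ?_
    show (2 * x - dd a b c q (n + 1)) * psi x a b c q (n + 1) -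
      (1 - q ^ (n + 1)) * ff a b c q n * psi x a b c q n = _
    ring

/-- the coefficients of `t ^ 0` and `t ^ 1` of `f x` are polynomials of degree `≤ k`, the second one
without `x ^ k` -/
def PoS (f : ℝ → ℝ⟦X⟧) (k : ℕ) : Prop :=
  (∃ l, Po (fun x => coeff 0 (f x)) k l) ∧ Po (fun x => coeff 1 (f x)) k 0

theorem coeff_one_mul' (f g : ℝ⟦X⟧) : coeff 1 (f * g) = coeff 0 f * coeff 1 g + coeff 1 f * coeff 0 g := by
  rw [PowerSeries.coeff_mul, Finset.Nat.antidiagonal_succ]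
  simp

theorem coeff_zero_mul' (f g : ℝ⟦X⟧) : coeff 0 (f * g) = coeff 0 f * coeff 0 g := by
  simp only [coeff_zero_eq_constantCoeff_apply, map_mul]

theorem PoS.smul_up {f : ℝ → ℝ⟦X⟧} {k : ℕ} (hf : PoS f k) (r : ℝ⟦X⟧) {m : ℕ} (hkm : k < m) :
    PoS (fun x => r * f x) m := by
  obtain ⟨⟨l, h0⟩, h1⟩ := hf
  refine ⟨⟨0, ((h0.smul (coeff 0 r)).up hkm).congr fun x => coeff_zero_mul' _ _⟩, ?_⟩
  have h2 := ((h1.smul (coeff 0 r)).up hkm).add ((h0.smul (coeff 1 r)).up hkm)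
  rw [add_zero] at h2
  exact h2.congr fun x => coeff_one_mul' _ _

theorem PoS.add {f g : ℝ → ℝ⟦X⟧} {k : ℕ} (hf : PoS f k) (hg : PoS g k) :
    PoS (fun x => f x + g x) k := by
  obtain ⟨⟨l, h0⟩, h1⟩ := hf
  obtain ⟨⟨m, g0⟩, g1⟩ := hg
  refine ⟨⟨l + m, (h0.add g0).congr fun x => map_add _ _ _⟩, ?_⟩
  have := h1.add g1
  rw [add_zero] at this
  exact this.congr fun x => map_add _ _ _

theorem PoS.mulX {f : ℝ → ℝ⟦X⟧} {k : ℕ} (hf : PoS f k) :
    PoS (fun x => 2 * C x * f x) (k + 1) := by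
  obtain ⟨⟨l, h0⟩, h1⟩ := hf
  have e : ∀ (x : ℝ) (m : ℕ), coeff m (2 * C x * f x) = 2 * (x * coeff m (f x)) := by
    intro x m
    have : (2 : ℝ⟦X⟧) = C (2 : ℝ) := by rw [map_ofNat]
    rw [this, mul_assoc, coeff_C_mul, coeff_C_mul]
  refine ⟨⟨2 * l, (h0.mulX.smul 2).congr fun x => e x 0⟩, ?_⟩
  have := h1.mulX.smul 2
  rw [mul_zero] at this
  exact this.congr fun x => e x 1

theorem psiS (b c q : ℝ) (n : ℕ) : PoS (fun x => psi (C x) (C b) (C c) X (C q) n) n ∧
    PoS (fun x => psi (C x) (C b) (C c) X (C q) (n + 1)) (n + 1) := by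
  have hz : PoS (fun x => psi (C x) (C b) (C c) X (C q) 0) 0 := by
    refine ⟨⟨1, (Po.const 1).congr fun x => ?_⟩, (Po.const 0).congr fun x => ?_⟩
    · show coeff 0 (1 : ℝ⟦X⟧) = 1
      simp
    · show coeff 1 (1 : ℝ⟦X⟧) = 0
      rw [coeff_one]
      simp
  induction n with
  | zero =>
    refine ⟨hz, ?_⟩
    have h1 := hz.mulX.add (hz.smul_up (-(dd (C b) (C c) X (C q) 0 : ℝ⟦X⟧)) (Nat.zero_lt_one))
    have e : (fun x : ℝ => (psi (C x) (C b) (C c) X (C q) (0 + 1) : ℝ⟦X⟧)) = fun x =>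
        2 * C x * psi (C x) (C b) (C c) X (C q) 0 +
          -(dd (C b) (C c) X (C q) 0) * psi (C x) (C b) (C c) X (C q) 0 := by
      funext x
      show 2 * C x - dd (C b) (C c) X (C q) 0 = 2 * C x * 1 + -(dd (C b) (C c) X (C q) 0) * 1
      ring
    rw [e]
    exact h1
  | succ n ih =>
    refine ⟨ih.2, ?_⟩
    have h1 := (ih.2.mulX.add (ih.2.smul_up (-(dd (C b) (C c) X (C q) (n + 1) : ℝ⟦X⟧))
      (Nat.lt_succ_self _))).add (ih.1.smul_up (-((1 - C q ^ (n + 1)) * ff (C b) (C c) X (C q) n : ℝ⟦X⟧))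
        (show n < n + 1 + 1 by omega))
    have e : (fun x : ℝ => (psi (C x) (C b) (C c) X (C q) (n + 1 + 1) : ℝ⟦X⟧)) = fun x =>
        2 * C x * psi (C x) (C b) (C c) X (C q) (n + 1) +
          -(dd (C b) (C c) X (C q) (n + 1)) * psi (C x) (C b) (C c) X (C q) (n + 1) +
          -((1 - C q ^ (n + 1)) * ff (C b) (C c) X (C q) n) * psi (C x) (C b) (C c) X (C q) n := by
      funext x
      show (2 * C x - dd (C b) (C c) X (C q) (n + 1)) * psi (C x) (C b) (C c) X (C q) (n + 1) -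
        (1 - C q ^ (n + 1)) * ff (C b) (C c) X (C q) n * psi (C x) (C b) (C c) X (C q) n = _
      ring
    rw [e]
    exact h1

theorem poch_coeff (α q : ℝ) (n : ℕ) : coeff 0 (poch (C α * X) (C q) n : ℝ⟦X⟧) = 1 ∧
    coeff 1 (poch (C α * X) (C q) n : ℝ⟦X⟧) = -(α * ∑ j ∈ range n, q ^ j) := by
  unfold poch
  induction n with
  | zero =>
    simp [coeff_one]
  | succ n ih =>
    rw [Finset.prod_range_succ, coeff_zero_mul', coeff_one_mul', ih.1, ih.2, Finset.sum_range_succ]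
    have e1 : coeff 0 (1 - C α * X * C q ^ n : ℝ⟦X⟧) = 1 := by
      simp
    have e2 : coeff 1 (1 - C α * X * C q ^ n : ℝ⟦X⟧) = -(α * q ^ n) := by
      have : (1 - C α * X * C q ^ n : ℝ⟦X⟧) = 1 - C (α * q ^ n) * X := by
        rw [map_mul, map_pow]
        ring
      rw [this, map_sub, coeff_one, coeff_C_mul, coeff_one_X]
      simp
    rw [e1, e2]
    constructor <;> ring

theorem qbinom_self (q : ℝ) (hq : |q| < 1) (n : ℕ) : qbinom q n n = 1 := by
  have h : ∀ n : ℕ, poch q q n ≠ 0 := by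
    intro n
    unfold poch
    rw [Finset.prod_ne_zero_iff]
    intro j _ h
    have h1 : q ^ (j + 1) = 1 := by
      rw [pow_succ']
      linarith
    have h2 : |q| ^ (j + 1) = 1 := by rw [← abs_pow, h1, abs_one]
    have h3 : |q| ^ (j + 1) < 1 := pow_lt_one₀ (abs_nonneg q) hq (Nat.succ_ne_zero j)
    linarith
  unfold qbinom
  rw [Nat.sub_self]
  have : poch q q 0 = 1 := by simp [poch]
  rw [this, mul_one, div_self (h n)]

theorem AW_Po (a b c q : ℝ) (hq : |q| < 1) (n : ℕ) : Po (fun x => coeff 1 (AW x a b c q n)) n 0 := by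
  have hterm : ∀ i ∈ range (n + 1), Po (fun x => coeff 1
      (C (qbinom q n i * (-a) ^ (n - i) * q ^ (n - i).choose 2) *
    (poch (C (b * c * q ^ i)) (C q) (n - i) * poch (C (b * q ^ i) * X) (C q) (n - i) *
      poch (C (c * q ^ i) * X) (C q) (n - i)) *
    (poch (C (a * b * c * q ^ (n + i - 1)) * X) (C q) (n - i))⁻¹ *
    psi (C x) (C b) (C c) X (C q) i : ℝ⟦X⟧)) n 0 := by
    intro i hi
    have hi' : i ≤ n := Nat.lt_succ_iff.1 (mem_range.1 hi)
    rcases hi'.lt_or_eq with h | h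
    · exact ((psiS b c q i).1.smul_up _ h).2
    · subst h
      have e : ∀ x : ℝ, (C (qbinom q i i * (-a) ^ (i - i) * q ^ (i - i).choose 2) *
          (poch (C (b * c * q ^ i)) (C q) (i - i) * poch (C (b * q ^ i) * X) (C q) (i - i) *
            poch (C (c * q ^ i) * X) (C q) (i - i)) *
          (poch (C (a * b * c * q ^ (i + i - 1)) * X) (C q) (i - i))⁻¹ *
          psi (C x) (C b) (C c) X (C q) i : ℝ⟦X⟧) = psi (C x) (C b) (C c) X (C q) i := by
        intro x
        rw [Nat.sub_self, qbinom_self q hq]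
        simp [poch]
      exact (psiS b c q i).1.2.congr fun x => by rw [e]
  have h2 := Po.sum (range (n + 1)) _ (fun _ => 0) n hterm
  rw [Finset.sum_const_zero] at h2
  refine h2.congr fun x => ?_
  unfold AW
  rw [map_sum]

theorem key_pos (q : ℝ) (hq : |q| < 1) (n : ℕ) :
    0 < 1 + q ^ n - q ^ (2 * n + 1) - q ^ (2 * n + 2) := by
  have h1 : |q ^ n| ≤ 1 := by
    rw [abs_pow]
    exact pow_le_one₀ (abs_nonneg q) hq.le
  have hq1 := abs_lt.1 hq
  have h2 := abs_le.1 h1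
  -- `1 + u - u² q - u² q²`, `u = q ^ n`
  set u := q ^ n with hu
  have e1 : q ^ (2 * n + 1) = u ^ 2 * q := by
    rw [hu]
    ring
  have e2 : q ^ (2 * n + 2) = u ^ 2 * q ^ 2 := by
    rw [hu]
    ring
  rw [e1, e2]
  rcases le_or_gt 0 q with h | h
  · have hu0 : 0 ≤ u := pow_nonneg h n
    have h3 : u ^ 2 ≤ u := by nlinarith
    have h4 : u ^ 2 * q ≤ u := by nlinarith [sq_nonneg u]
    have h5 : u ^ 2 * q ^ 2 < 1 := by
      have : u ^ 2 * q ^ 2 = (u * q) ^ 2 := by ring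
      have h6 : u * q < 1 := by nlinarith
      rw [this]
      nlinarith [mul_nonneg hu0 h]
    linarith
  · -- `u² (q + q²) ≤ 0`
    have h3 : u ^ 2 * q + u ^ 2 * q ^ 2 ≤ 0 := by
      have : u ^ 2 * q + u ^ 2 * q ^ 2 = u ^ 2 * (q * (1 + q)) := by ring
      rw [this]
      exact mul_nonpos_of_nonneg_of_nonpos (sq_nonneg u)
        (mul_nonpos_of_nonpos_of_nonneg h.le (by linarith))
    rcases h2.1.lt_or_eq with h4 | h4
    · linarith
    · -- `u = -1` is impossible unless `n = 0`, where `u = 1`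
      exfalso
      rcases Nat.eq_zero_or_pos n with h5 | h5
      · subst h5
        rw [pow_zero] at hu
        linarith
      · have h6 : |u| = 1 := by rw [← h4, abs_neg, abs_one]
        have h7 : |u| < 1 := by
          rw [hu, abs_pow]
          exact pow_lt_one₀ (abs_nonneg q) hq (by omega)
        linarith

/-- For every `n ≥ 1`, every `q ∈ (-1, 1)` and all `a, b, c` with `abc ≠ 0` the identity of Q1 fails. -/
theorem result : ∀ n : ℕ, 1 ≤ n → ∀ q : ℝ, -1 < q → q < 1 → ∀ a b c : ℝ, a * b * c ≠ 0 →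
    ¬ Identity n a b c q := by
  intro n hn q hq0 hq1 a b c habc hid
  have hq : |q| < 1 := abs_lt.2 ⟨hq0, hq1⟩
  obtain ⟨m, rfl⟩ : ∃ m, n = m + 1 := ⟨n - 1, by omega⟩
  have hq' : (1 - q) ≠ 0 := by linarith
  obtain ⟨P, hP⟩ : ∃ P : ℝ⟦X⟧, P = poch (C a * X) (C q) (m + 1) * poch (C b * X) (C q) (m + 1) *
    poch (C c * X) (C q) (m + 1) := ⟨_, rfl⟩
  have hP0 : coeff 0 P = 1 := by
    rw [hP, coeff_zero_mul', coeff_zero_mul', (poch_coeff a q _).1, (poch_coeff b q _).1,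
      (poch_coeff c q _).1]
    norm_num
  have hP1 : coeff 1 P = -((a + b + c) * ∑ j ∈ range (m + 1), q ^ j) := by
    rw [hP, coeff_one_mul', coeff_one_mul', coeff_zero_mul', (poch_coeff a q _).1, (poch_coeff b q _).1,
      (poch_coeff c q _).1, (poch_coeff a q _).2, (poch_coeff b q _).2, (poch_coeff c q _).2]
    ring
  have hPinv : P⁻¹ * P = 1 := by
    refine PowerSeries.inv_mul_cancel P ?_
    rw [← coeff_zero_eq_constantCoeff_apply, hP0]
    exact one_ne_zero
  have hmul : ∀ x : ℝ, G x a b c q (m + 1) * P = AW x a b c q (m + 1) * G x a b c q 0 := by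
    intro x
    rw [hid x, ← hP]
    calc AW x a b c q (m + 1) * P⁻¹ * G x a b c q 0 * P =
        AW x a b c q (m + 1) * G x a b c q 0 * (P⁻¹ * P) := by ring
      _ = _ := by rw [hPinv, mul_one]
  have hG0 : ∀ (x : ℝ) (k : ℕ), coeff 0 (G x a b c q k) = psi x a b c q k := by
    intro x k
    unfold G
    rw [coeff_mk]
    simp [poch]
  have hG1 : ∀ (x : ℝ) (k : ℕ), coeff 1 (G x a b c q k) = psi x a b c q (k + 1) / (1 - q) := by
    intro x k
    unfold G
    rw [coeff_mk, add_comm]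
    simp [poch]
  have hsum : (1 - q) * ∑ j ∈ range (m + 1), q ^ j = 1 - q ^ (m + 1) := by
    have := mul_neg_geom_sum q (m + 1)
    exact this
  -- coefficients of order zero and one
  have h0 : ∀ x, coeff 0 (AW x a b c q (m + 1)) = psi x a b c q (m + 1) := by
    intro x
    have := congrArg (coeff 0) (hmul x)
    rw [coeff_zero_mul', coeff_zero_mul', hG0, hG0, hP0, mul_one] at this
    have h1 : psi x a b c q 0 = 1 := rfl
    rw [h1, mul_one] at this
    exact this.symm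
  have h1 : ∀ x, (1 - q) * coeff 1 (AW x a b c q (m + 1)) =
      (-(a * b * c) * (1 + q ^ m - q ^ (2 * m + 1) - q ^ (2 * m + 2))) * psi x a b c q (m + 1) +
        (-((1 - q ^ (m + 1)) * ff a b c q m)) * psi x a b c q m := by
    intro x
    have := congrArg (coeff 1) (hmul x)
    rw [coeff_one_mul', coeff_one_mul', hG0, hG0, hG1, hG1, hP0, hP1, h0] at this
    have e1 : psi x a b c q 0 = 1 := rfl
    have e2 : psi x a b c q (0 + 1) = 2 * x - (a + b + c - a * b * c) := rfl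
    have e3 : psi x a b c q (m + 1 + 1) = (2 * x - ((a + b + c) * q ^ (m + 1) + a * b * c * q ^ m *
        (1 - q ^ (m + 1) - q ^ (m + 2)))) * psi x a b c q (m + 1) -
      (1 - q ^ (m + 1)) * ff a b c q m * psi x a b c q m := rfl
    rw [e1, e2, e3] at this
    have h2 : (1 - q) * (((2 * x - ((a + b + c) * q ^ (m + 1) + a * b * c * q ^ m *
        (1 - q ^ (m + 1) - q ^ (m + 2)))) * psi x a b c q (m + 1) -
      (1 - q ^ (m + 1)) * ff a b c q m * psi x a b c q m) / (1 - q)) =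
      (2 * x - ((a + b + c) * q ^ (m + 1) + a * b * c * q ^ m *
        (1 - q ^ (m + 1) - q ^ (m + 2)))) * psi x a b c q (m + 1) -
      (1 - q ^ (m + 1)) * ff a b c q m * psi x a b c q m := mul_div_cancel₀ _ hq'
    have h3 : (1 - q) * ((2 * x - (a + b + c - a * b * c)) / (1 - q)) =
      2 * x - (a + b + c - a * b * c) := mul_div_cancel₀ _ hq'
    linear_combination (-(1 - q)) * this + h2 - psi x a b c q (m + 1) * h3 -
      (a + b + c) * psi x a b c q (m + 1) * hsum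
  have hA := (AW_Po a b c q hq (m + 1)).smul (1 - q)
  have hB := ((psi_Po a b c q m).2.smul
    (-(a * b * c) * (1 + q ^ m - q ^ (2 * m + 1) - q ^ (2 * m + 2)))).add
    (((psi_Po a b c q m).1.smul (-((1 - q ^ (m + 1)) * ff a b c q m))).up (Nat.lt_succ_self m))
  have hC := hB.congr h1
  have h2 := hA.unique hC
  rw [mul_zero, add_zero] at h2
  have h3 := key_pos q hq m
  have h4 : -(a * b * c) * (1 + q ^ m - q ^ (2 * m + 1) - q ^ (2 * m + 2)) * 2 ^ (m + 1) ≠ 0 :=
    mul_ne_zero (mul_ne_zero (neg_ne_zero.2 habc) h3.ne') (by positivity)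
  exact h4 h2.symm

end Pool.Agent.Results.MP_93f727_an.Fails
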